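import Pool.Agent.N290.RL.Stm
import Pool.Agent.N617.RK.XX

/-!
Project RL (helper290), part YX: estimates of the functions `X_j` (helper252, after
`Pool/Agent/N617/RK/XX.lean` of helper617).
-/

set_option autoImplicit false

open Complex MeasureTheory Set Filter Topology

namespace Pool.Agent.N252.RL

open Pool.Agent.N290.RJ Pool.Agent.N290.RL
open Pool.Agent.N290.RK (R3a lam pp dw st)
open Pool.Agent.N617.RK (lin_C db_chi db_exp norm_exp_one norm_dw_le dw_zero db_prod main_alg)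

variable {d : ℕ}

theorem exp_dif (s s' : ℝ) : ‖exp (I * (s' : ℂ)) - exp (I * (s : ℂ))‖ ≤ |s' - s| := by
  have h1 : exp (I * (s' : ℂ)) - exp (I * (s : ℂ)) =
      exp (I * (s : ℂ)) * (exp (I * ((s' - s : ℝ) : ℂ)) - 1) := by
    rw [mul_sub, ← Complex.exp_add, mul_one]
    congr 2
    push_cast
    ring
  rw [h1, norm_mul, norm_exp_one I Complex.I_re, one_mul]
  refine (Real.norm_exp_I_mul_ofReal_sub_one_le (x := s' - s)).trans ?_
  rw [Real.norm_eq_abs]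

theorem chi_lip {χ : ℂ → ℝ} {L : ℝ} (hχ : ContDiff ℝ 2 χ) (h : ∀ w, ‖fderiv ℝ χ w‖ ≤ L)
    (w w' : ℂ) : |χ w' - χ w| ≤ L * ‖w' - w‖ :=
  Convex.norm_image_sub_le_of_norm_fderiv_le (𝕜 := ℝ) (s := univ)
    (fun x _ => hχ.differentiable (by norm_num) x) (fun x _ => h x) convex_univ
    (mem_univ _) (mem_univ _)

/-- the difference of two products -/
theorem dif_alg {l l' c c' : ℝ} {e e' : ℂ} (he' : ‖e'‖ = 1) (hl : 0 ≤ l)
    (hc : 0 ≤ c ∧ c ≤ 1) (hc' : 0 ≤ c' ∧ c' ≤ 1) {T1 T2 T3 : ℝ} (h1 : |l' - l| ≤ T1)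
    (h2 : l * |c' - c| ≤ T2) (h3 : l * ‖e' - e‖ ≤ T3) :
    ‖(l' : ℂ) * (c' : ℂ) * e' - (l : ℂ) * (c : ℂ) * e‖ ≤ T1 + T2 + T3 := by
  have key : (l' : ℂ) * (c' : ℂ) * e' - (l : ℂ) * (c : ℂ) * e =
      ((l' - l : ℝ) : ℂ) * (c' : ℂ) * e' + (l : ℂ) * ((c' - c : ℝ) : ℂ) * e' +
        (l : ℂ) * (c : ℂ) * (e' - e) := by
    push_cast
    ring
  rw [key]
  refine (norm_add_le _ _).trans (add_le_add ((norm_add_le _ _).trans (add_le_add ?_ ?_)) ?_)
  · rw [norm_mul, norm_mul, he', mul_one, Complex.norm_real, Complex.norm_real, Real.norm_eq_abs,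
      Real.norm_of_nonneg hc'.1]
    exact (mul_le_of_le_one_right (abs_nonneg _) hc'.2).trans h1
  · rw [norm_mul, norm_mul, he', mul_one, Complex.norm_real, Complex.norm_real, Real.norm_eq_abs,
      Real.norm_eq_abs, abs_of_nonneg hl]
    exact h2
  · rw [norm_mul, norm_mul, Complex.norm_real, Complex.norm_real, Real.norm_of_nonneg hl,
      Real.norm_of_nonneg hc.1]
    calc l * c * ‖e' - e‖ = c * (l * ‖e' - e‖) := by ring
      _ ≤ 1 * (l * ‖e' - e‖) := mul_le_mul_of_nonneg_right hc.2 (mul_nonneg hl (norm_nonneg _))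
      _ ≤ T3 := by rw [one_mul]; exact h3

theorem YX_of (d : ℕ) (_h3 : R3a) (hN : YN d) (hA : YA d) (hF : YF d) (hP : YP d) (hS : YS d) :
    YX d := by
  intro A L
  obtain ⟨C₁, hC₁, hP⟩ := hP A L
  obtain ⟨C₂, hC₂, hS⟩ := hS A L
  obtain ⟨C₃, hC₃D⟩ : ∃ C₃ : ℝ, C₃ = |3 / 2 * L * A ^ 2| + C₁ + C₂ + 2 * C₁ * |L| + 8 * |L| + 1 :=
    ⟨_, rfl⟩
  refine ⟨C₃, by rw [hC₃D]; positivity, ?_⟩
  intro ε₂ φ χ a f D j
  obtain ⟨hPcd, hlcd, hPz⟩ := hP ε₂ φ χ a f D j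
  obtain ⟨hScd, hSz⟩ := hS ε₂ φ χ a f D j
  have hL0 : 0 < L := by linarith [D.hL]
  have hA1 : 1 ≤ A := by linarith [D.hA, D.hL]
  have hA0 : 0 < A := by linarith
  have hLa : |L| = L := abs_of_pos hL0
  obtain ⟨hacd, haz⟩ := hA A a hA1 D.aw j
  have hr0 := rad_nonneg j
  have hr1 := (rad_lt_one j).le
  have hFcd : ContDiffOn ℝ 1 (fun w => f (rad j • w)) (B d) := cd_dil (cd_hol D.f1) hr0 hr1
  have hχcd : ContDiffOn ℝ 1 (fun w => ((χ (f (rad j • w)) : ℝ) : ℂ)) (B d) :=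
    Complex.ofRealCLM.contDiff.comp_contDiffOn ((D.χ1.of_le (by norm_num)).comp_contDiffOn hFcd)
  have hlcd' : ContDiffOn ℝ 1 (fun w => ((lj φ A a f j w : ℝ) : ℂ)) (B d) :=
    Complex.ofRealCLM.contDiff.comp_contDiffOn hlcd
  have hScd' : ContDiffOn ℝ 1 (fun w => ((Sj φ A a f j w : ℝ) : ℂ)) (B d) :=
    Complex.ofRealCLM.contDiff.comp_contDiffOn hScd
  have hnhds : ∀ z ∈ B d, B d ∈ 𝓝 z := fun z hz => B_open.mem_nhds hz
  refine ⟨?_, ?_⟩
  · exact (hlcd'.mul hχcd).mul ((contDiffOn_const.mul hScd').cexp)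
  intro z hz
  obtain ⟨hl0, hlC, -, hldif, -, hPξ⟩ := hPz z hz
  obtain ⟨ha0, -, -, ha2, -⟩ := haz z hz
  obtain ⟨hs0, hs1, hu0, hu1, -⟩ := hN z hz j
  obtain ⟨-, hΔ, -, hxξ⟩ := hF a f D.aw D.f1 D.f3 j z hz
  have haω := D.aw.a2 z hz
  obtain ⟨az, haD⟩ : ∃ az : ℝ, az = a z := ⟨_, rfl⟩
  obtain ⟨u, huD⟩ : ∃ u : ℝ, u = ww z j := ⟨_, rfl⟩
  obtain ⟨s, hsD⟩ : ∃ s : ℝ, s = st j z := ⟨_, rfl⟩
  obtain ⟨al0, halD⟩ : ∃ al0 : ℝ, al0 = al A a j z := ⟨_, rfl⟩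
  obtain ⟨lm, hlD⟩ : ∃ lm : ℝ, lm = lj φ A a f j z := ⟨_, rfl⟩
  obtain ⟨Fz, hFD⟩ : ∃ Fz : ℂ, Fz = f (rad j • z) := ⟨_, rfl⟩
  have hlme : lm = φ Fz ^ 2 + al0 ^ 2 := by rw [hlD, hFD, halD]; rfl
  rw [← haD] at haω
  rw [← huD] at hu0 hu1
  rw [← hsD] at hs0 hs1
  rw [← halD] at ha0
  rw [← halD, ← haD, ← huD] at ha2
  rw [← hlD] at hl0 hlC
  rw [← haD, ← huD, ← hsD] at hΔ hldif
  rw [← hlD] at hldif
  have hau : 0 ≤ az / u * s := mul_nonneg (div_nonneg haω.1.le hu0.le) hs0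
  have hX : ‖Xj φ χ A a f j z‖ ≤ lm := by
    unfold Xj
    rw [norm_mul, norm_exp_one I Complex.I_re, mul_one, norm_mul, Complex.norm_real,
      Complex.norm_real, ← hlD, Real.norm_of_nonneg hl0.le, Real.norm_of_nonneg (D.χ2 _).1]
    exact mul_le_of_le_one_right hl0.le (D.χ2 _).2
  have hlp : (lm : ℂ) * pj φ A a f j z = 2 * (φ Fz : ℂ) * dw φ Fz := by
    unfold pj pp
    rw [← hFD]
    have h5 : lam φ Fz (al A a j z) = lm := by rw [hlD, hFD]; rfl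
    rw [h5]
    have : (lm : ℂ) ≠ 0 := by exact_mod_cast hl0.ne'
    field_simp
  refine ⟨?_, ?_, ?_⟩
  · have h1 : 0 ≤ |3 / 2 * L * A ^ 2| := abs_nonneg _
    have h2 : 0 ≤ 2 * C₁ * |L| := by positivity
    have h3 : 0 ≤ 8 * |L| := by positivity
    rw [hC₃D]
    linarith
  · -- the difference
    obtain ⟨δ, hδ⟩ : ∃ δ, δ = ‖f (rad (j + 1) • z) - f (rad j • z)‖ := ⟨_, rfl⟩
    rw [← hδ] at hΔ
    have hδ0 : 0 ≤ δ := by rw [hδ]; exact norm_nonneg _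
    have t2 : lm * |χ (f (rad (j + 1) • z)) - χ (f (rad j • z))| ≤ 2 * C₁ * L * (az / u * s) := by
      have h1 := chi_lip D.χ1 D.χ3 (f (rad j • z)) (f (rad (j + 1) • z))
      rw [← hδ] at h1
      calc lm * |χ (f (rad (j + 1) • z)) - χ (f (rad j • z))| ≤ C₁ * (L * δ) :=
            mul_le_mul hlC h1 (abs_nonneg _) hC₁.le
        _ ≤ C₁ * (L * (2 * (az / u) * s)) := by gcongr
        _ = 2 * C₁ * L * (az / u * s) := by ring
    have t3 : lm * ‖exp (I * ((Sj φ A a f (j + 1) z : ℝ) : ℂ)) -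
        exp (I * ((Sj φ A a f j z : ℝ) : ℂ))‖ ≤ 8 * L * (az / u * s) := by
      have e2 := exp_dif (Sj φ A a f j z) (Sj φ A a f (j + 1) z)
      have e3 : |Sj φ A a f (j + 1) z - Sj φ A a f j z| ≤
          2 * (‖pj φ A a f j z‖ * δ) := by
        have : Sj φ A a f (j + 1) z = Sj φ A a f j z + 2 * (pj φ A a f j z *
          (f (rad (j + 1) • z) - f (rad j • z))).im := rfl
        rw [this, add_sub_cancel_left, abs_mul, abs_of_pos (by norm_num : (0 : ℝ) < 2), hδ,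
          ← norm_mul]
        exact mul_le_mul_of_nonneg_left (Complex.abs_im_le_norm _) (by norm_num)
      have e4 : lm * ‖pj φ A a f j z‖ ≤ 2 * L := by
        have h6 : ‖(lm : ℂ) * pj φ A a f j z‖ = lm * ‖pj φ A a f j z‖ := by
          rw [norm_mul, Complex.norm_real, Real.norm_of_nonneg hl0.le]
        rw [← h6, hlp, norm_mul, norm_mul, Complex.norm_real, Real.norm_of_nonneg (D.φ2 _).1]
        have n2 : ‖(2 : ℂ)‖ = 2 := by simp
        rw [n2]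
        have h7 := norm_dw_le D.φ3 Fz
        have h8 := mul_le_mul (D.φ2 Fz).2 h7 (norm_nonneg _) zero_le_one
        linarith
      calc lm * ‖exp (I * ((Sj φ A a f (j + 1) z : ℝ) : ℂ)) -
            exp (I * ((Sj φ A a f j z : ℝ) : ℂ))‖ ≤ lm * (2 * (‖pj φ A a f j z‖ * δ)) :=
            mul_le_mul_of_nonneg_left (e2.trans e3) hl0.le
        _ = 2 * (lm * ‖pj φ A a f j z‖) * δ := by ring
        _ ≤ 2 * (2 * L) * (2 * (az / u) * s) := by gcongr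
        _ = 8 * L * (az / u * s) := by ring
    have t1 : |lj φ A a f (j + 1) z - lm| ≤ C₁ * (az / u * s) := by
      rw [← mul_assoc]
      exact hldif
    have h1 := dif_alg (norm_exp_one I Complex.I_re (Sj φ A a f (j + 1) z)) hl0.le
      (D.χ2 (f (rad j • z))) (D.χ2 (f (rad (j + 1) • z))) t1 t2 t3
    have h2 : ‖Xj φ χ A a f (j + 1) z - Xj φ χ A a f j z‖ ≤ C₁ * (az / u * s) +
        2 * C₁ * L * (az / u * s) + 8 * L * (az / u * s) := by
      rw [hlD] at h1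
      exact h1
    refine h2.trans ?_
    rw [← haD, ← huD, ← hsD]
    have h3 : C₃ * az * (s / u) = C₃ * (az / u * s) := by ring
    rw [h3]
    have h4 : C₁ * (az / u * s) + 2 * C₁ * L * (az / u * s) + 8 * L * (az / u * s) =
        (C₁ + 2 * C₁ * L + 8 * L) * (az / u * s) := by ring
    rw [h4]
    refine mul_le_mul_of_nonneg_right ?_ hau
    rw [hC₃D, hLa]
    have h5 : 0 ≤ |3 / 2 * L * A ^ 2| := abs_nonneg _
    linarith
  intro ξ
  obtain ⟨hx1, hx2, -, -⟩ := hxξ ξ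
  have hdF : DifferentiableAt ℝ (fun w => f (rad j • w)) z :=
    (hFcd.differentiableOn (by norm_num)).differentiableAt (hnhds z hz)
  have hdl : DifferentiableAt ℝ (fun w => ((lj φ A a f j w : ℝ) : ℂ)) z :=
    (hlcd'.differentiableOn (by norm_num)).differentiableAt (hnhds z hz)
  have hdS : DifferentiableAt ℝ (fun w => ((Sj φ A a f j w : ℝ) : ℂ)) z :=
    (hScd'.differentiableOn (by norm_num)).differentiableAt (hnhds z hz)
  have hdχ : DifferentiableAt ℝ (fun w => ((χ (f (rad j • w)) : ℝ) : ℂ)) z :=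
    (hχcd.differentiableOn (by norm_num)).differentiableAt (hnhds z hz)
  have hxI : ∀ ξ, xj f j z (I • ξ) = I * xj f j z ξ := by
    intro ξ
    unfold xj
    rw [smul_comm, map_smul, smul_eq_mul]
  have hb := db_chi D.χ1 (F := fun w => f (rad j • w)) (x := xj f j z) hdF
    (fun ξ => (hxξ ξ).2.1) hxI ξ
  have hP2 := (hPξ ξ).2
  have hS2 := hSz z hz ξ
  obtain ⟨q, hqD⟩ : ∃ q : ℂ, q = starRingEnd ℂ (pj φ A a f j z * xj f j z ξ) := ⟨_, rfl⟩
  rw [← hqD, ← hlD] at hP2 hS2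
  rw [← haD, ← huD] at hP2 hS2 hx1
  have hlen := len_nonneg z ξ
  obtain ⟨M, hM⟩ : ∃ M : ℝ, M = az ^ 2 * u ^ 4 * len z ξ := ⟨_, rfl⟩
  have hM0 : 0 ≤ M := by rw [hM]; positivity
  -- the first term
  have hT1 : ‖(lm : ℂ) * starRingEnd ℂ (dw χ Fz * xj f j z ξ)‖ ≤
      |3 / 2 * L * A ^ 2| * M := by
    rcases lt_or_ge ‖Fz‖ ε₂ with hlt | hge
    · rw [dw_zero D.χ5 hlt, zero_mul, map_zero, mul_zero, norm_zero]
      positivity
    · have hφ0 := D.φ5 Fz hge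
      rw [hφ0] at hlme
      have h1 : lm ≤ A ^ 2 * (az / u) ^ 2 := by
        rw [hlme, ← mul_pow]
        have := pow_le_pow_left₀ ha0.le ha2 2
        linarith
      rw [norm_mul, Complex.norm_real, Real.norm_of_nonneg hl0.le, RCLike.norm_conj, norm_mul]
      have h2 := norm_dw_le D.χ3 Fz
      have h3 : ‖dw χ Fz‖ * ‖xj f j z ξ‖ ≤ L * (3 / 2 * az * u ^ 7 * len z ξ) :=
        mul_le_mul h2 hx1 (norm_nonneg _) hL0.le
      have h4 : 0 ≤ L * (3 / 2 * az * u ^ 7 * len z ξ) := by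
        have := haω.1
        positivity
      have h5 : lm * (‖dw χ Fz‖ * ‖xj f j z ξ‖) ≤
          (A ^ 2 * (az / u) ^ 2) * (L * (3 / 2 * az * u ^ 7 * len z ξ)) :=
        mul_le_mul h1 h3 (by positivity) (by positivity)
      refine h5.trans ?_
      have h6 : (A ^ 2 * (az / u) ^ 2) * (L * (3 / 2 * az * u ^ 7 * len z ξ)) =
          (3 / 2 * L * A ^ 2 * M) * (az * u) := by
        rw [hM]
        field_simp
      rw [h6, abs_of_nonneg (by positivity)]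
      have h7 : az * u ≤ 1 := mul_le_one₀ haω.2 hu0.le hu1
      exact mul_le_of_le_one_right (by positivity) h7
  have hT2 : ‖db (fun w => (lj φ A a f j w : ℂ)) z ξ - (lm : ℂ) * q‖ ≤ C₁ * M := by
    refine hP2.trans ?_
    have h1 : u ^ 2 ≤ 1 := pow_le_one₀ hu0.le hu1
    have h2 : C₁ * az ^ 2 * u ^ 6 * len z ξ = (C₁ * M) * u ^ 2 := by rw [hM]; ring
    rw [h2]
    exact mul_le_of_le_one_right (by positivity) h1
  have hT3 : lm * ‖db (fun w => (Sj φ A a f j w : ℂ)) z ξ - I * q‖ ≤ C₂ * M := by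
    refine hS2.trans (le_of_eq ?_)
    rw [hM]
    ring
  have hfin : |3 / 2 * L * A ^ 2| * M + C₁ * M + C₂ * M ≤ C₃ * a z ^ 2 * ww z j ^ 4 * len z ξ := by
    rw [← haD, ← huD]
    have h1 : C₃ * az ^ 2 * u ^ 4 * len z ξ = C₃ * M := by rw [hM]; ring
    rw [h1, hC₃D]
    have h2 : 0 ≤ (2 * C₁ * |L| + 8 * |L| + 1) * M := by positivity
    nlinarith
  constructor
  · refine le_trans ?_ hfin
    have h1 := db_prod (a := lj φ A a f j) (b := fun w => χ (f (rad j • w)))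
      (s := Sj φ A a f j) I hdl hdχ hdS ξ
    have h2 : db (Xj φ χ A a f j) z ξ = exp (I * (Sj φ A a f j z : ℂ)) *
        ((lm : ℂ) * starRingEnd ℂ (dw χ Fz * xj f j z ξ) + ((χ Fz : ℝ) : ℂ) *
          (db (fun w => (lj φ A a f j w : ℂ)) z ξ + I * (lm : ℂ) *
            db (fun w => (Sj φ A a f j w : ℂ)) z ξ)) - 0 := by
      rw [sub_zero, hFD, hlD, ← hb]
      exact h1
    rw [h2]
    exact main_alg (norm_exp_one I Complex.I_re _) hl0 (D.χ2 Fz) hT1 hT2 hT3 I 0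
      (Or.inl ⟨rfl, rfl⟩)
  · refine le_trans ?_ hfin
    have h1 := db_prod (a := lj φ A a f j) (b := fun w => χ (f (rad j • w)))
      (s := Sj φ A a f j) (-I) hdl hdχ hdS ξ
    have hconj : (fun w => starRingEnd ℂ (Xj φ χ A a f j w)) = fun w =>
        ((lj φ A a f j w : ℝ) : ℂ) * ((χ (f (rad j • w)) : ℝ) : ℂ) *
          exp (-I * ((Sj φ A a f j w : ℝ) : ℂ)) := by
      funext w
      unfold Xj
      rw [map_mul, map_mul, Complex.conj_ofReal, Complex.conj_ofReal, ← Complex.exp_conj, map_mul,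
        Complex.conj_I, Complex.conj_ofReal]
    have hχφ : χ Fz * φ Fz = φ Fz := by
      rcases le_total ‖Fz‖ ε₂ with h0 | h0
      · rw [D.χ5 Fz h0, one_mul]
      · rw [D.φ5 Fz h0, mul_zero]
    have hlq : (lm : ℂ) * q = 2 * (φ Fz : ℂ) * starRingEnd ℂ (dw φ Fz) *
        starRingEnd ℂ (xj f j z ξ) := by
      have h6 : (lm : ℂ) * q = starRingEnd ℂ ((lm : ℂ) * pj φ A a f j z * xj f j z ξ) := by
        rw [hqD, map_mul, map_mul, map_mul, Complex.conj_ofReal]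
        ring
      rw [h6, hlp]
      simp only [map_mul, Complex.conj_ofReal, map_ofNat]
    have hm : Pj φ A a f j z * starRingEnd ℂ (xj f j z ξ) =
        exp (-I * ((Sj φ A a f j z : ℝ) : ℂ)) * (((χ Fz : ℝ) : ℂ) * (2 * (lm : ℂ) * q)) := by
      have h7 : (((χ Fz : ℝ) : ℂ)) * ((φ Fz : ℝ) : ℂ) = ((φ Fz : ℝ) : ℂ) := by
        rw [← Complex.ofReal_mul, hχφ]
      unfold Pj
      rw [← hFD, neg_mul]
      linear_combination (-2 * exp (-(I * ((Sj φ A a f j z : ℝ) : ℂ))) * ((χ Fz : ℝ) : ℂ)) * hlq -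
        (4 * starRingEnd ℂ (dw φ Fz) * exp (-(I * ((Sj φ A a f j z : ℝ) : ℂ))) *
          starRingEnd ℂ (xj f j z ξ)) * h7
    rw [hconj]
    have h2 : db (fun w => ((lj φ A a f j w : ℝ) : ℂ) * ((χ (f (rad j • w)) : ℝ) : ℂ) *
          exp (-I * ((Sj φ A a f j w : ℝ) : ℂ))) z ξ = exp (-I * (Sj φ A a f j z : ℂ)) *
        ((lm : ℂ) * starRingEnd ℂ (dw χ Fz * xj f j z ξ) + ((χ Fz : ℝ) : ℂ) *
          (db (fun w => (lj φ A a f j w : ℂ)) z ξ + -I * (lm : ℂ) *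
            db (fun w => (Sj φ A a f j w : ℂ)) z ξ)) := by
      rw [hFD, hlD, ← hb]
      exact h1
    rw [h2]
    exact main_alg (norm_exp_one (-I) (by simp) _) hl0 (D.χ2 Fz) hT1 hT2 hT3 (-I) _
      (Or.inr ⟨rfl, hm⟩)

end Pool.Agent.N252.RL
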